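import Mathlib
import Pool.Agent.H47.Cantor2

namespace Pool.Agent.Results.MP_8144ad_nt.NotAP
open Finset Filter Topology

/-- `E 1, E 2, ...` are the digits of the `q`-Cantor series expansion of `x`. -/
def IsExpansion (q : ℕ → ℕ) (x : ℝ) (E : ℕ → ℕ) : Prop :=
  (∀ n, 1 ≤ n → E n < q n) ∧ {n | 1 ≤ n ∧ E n ≠ q n - 1}.Infinite ∧
    HasSum (fun n => (E (n + 1) : ℝ) / ∏ j ∈ Icc 1 (n + 1), (q j : ℝ)) (x - ⌊x⌋)

/-- `Q_n^{(k)}` -/
noncomputable def Qsum (q : ℕ → ℕ) (k n : ℕ) : ℝ :=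
  ∑ j ∈ Icc 1 n, (∏ t ∈ range k, (q (j + t) : ℝ))⁻¹

/-- `Q_{n,m,r}^{(k)}` -/
noncomputable def QsumAP (q : ℕ → ℕ) (k m r n : ℕ) : ℝ :=
  ∑ j ∈ (Icc 1 n).filter (fun j => j % m = r), (∏ t ∈ range k, (q (j + t) : ℝ))⁻¹

open Classical in
/-- number of positions `1 ≤ i ≤ n` at which the block `B` occurs in the digit sequence `E` -/
noncomputable def count (E : ℕ → ℕ) (k : ℕ) (B : Fin k → ℕ) (n : ℕ) : ℕ :=
  ((Icc 1 n).filter (fun i => ∀ t : Fin k, E (i + t) = B t)).card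

open Classical in
/-- the same count restricted to positions congruent to `r` modulo `m` (for `r < m`) -/
noncomputable def countAP (E : ℕ → ℕ) (k m r : ℕ) (B : Fin k → ℕ) (n : ℕ) : ℕ :=
  ((Icc 1 n).filter (fun i => (∀ t : Fin k, E (i + t) = B t) ∧ i % m = r)).card

/-- normality of order `k` of the number with digit sequence `E` -/
def NormalOrder (q E : ℕ → ℕ) (k : ℕ) : Prop :=
  ∀ B : Fin k → ℕ, Tendsto (fun n => (count E k B n : ℝ) / Qsum q k n) atTop (𝓝 1)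

/-- membership in `N^{AP}_k(Q; m, r)` of the number with digit sequence `E` -/
def NormalAP (q E : ℕ → ℕ) (k m r : ℕ) : Prop :=
  ∀ B : Fin k → ℕ, Tendsto (fun n => (countAP E k m r B n : ℝ) / QsumAP q k m r n) atTop (𝓝 1)

open Pool.Agent.H47.Cantor in
theorem result : ∃ (q : ℕ → ℕ) (x : ℝ) (E : ℕ → ℕ), (∀ n, 2 ≤ q n) ∧ Tendsto q atTop atTop ∧
    (∀ k m r, 1 ≤ k → r < m → Tendsto (QsumAP q k m r) atTop atTop) ∧ IsExpansion q x E ∧
    (∀ k, 1 ≤ k → NormalOrder q E k) ∧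
    ∀ k m r, 1 ≤ k → 2 ≤ m → r < m → ¬ NormalAP q E k m r := by
  classical
  set ρ : ℕ → ℕ := fun _ => 1 with hρd
  have hρ : ∀ k, ρ k ≤ 2 := fun k => by simp [hρd]
  obtain ⟨x, hx, hs⟩ := expansion Q (E ρ hρ) (E_lt ρ hρ)
  have hS : ∀ k, Tendsto (fun n => S qq LL k (n + 1)) atTop atTop := fun k =>
    (S_tendsto qq LL qq_one k).comp (tendsto_add_atTop_nat 1)
  have hc : ∀ k m r, 1 ≤ k → r < m → ∀ B : Fin k → ℕ,
      Tendsto (fun n => (countAP (E ρ hρ) k m r B n : ℝ) / QsumAP Q k m r n) atTop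
        (𝓝 (if r = 0 then (m : ℝ) else 0)) := by
    intro k m r hk hr B
    have hm : (m : ℝ) ≠ 0 := by exact_mod_cast (by omega : m ≠ 0)
    have h2 := (cnt ρ hρ k m r hk (by omega) B).div (wt k m r hr) (one_div_ne_zero hm)
    have e : (if r = 0 then (ρ k : ℝ) else 0) / (1 / m) = if r = 0 then (m : ℝ) else 0 := by
      split_ifs <;> simp [hρd]
    rw [e] at h2
    refine h2.congr' ?_
    filter_upwards [(hS k).eventually_gt_atTop 0] with n hn
    simp only [Pi.div_apply, countAP, QsumAP]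
    rw [div_div_div_cancel_right₀ hn.ne']
  refine ⟨Q, x, E ρ hρ, fun n => by have := E_lt ρ hρ n; omega, Q_tendsto, fun k m r _ hr => ?_,
    ⟨fun n _ => by have := E_lt ρ hρ n; omega, ?_, by simpa [hx] using hs⟩, fun k hk B => ?_,
    fun k m r hk hm hr h => ?_⟩
  · have hm : (0 : ℝ) < 1 / m := by
      have : (0 : ℝ) < m := by exact_mod_cast (by omega : 0 < m)
      positivity
    refine ((wt k m r hr).pos_mul_atTop hm (hS k)).congr' ?_
    filter_upwards [(hS k).eventually_gt_atTop 0] with n hn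
    exact div_mul_cancel₀ _ hn.ne'
  · refine (Set.Ici_infinite 1).mono fun n hn => ⟨hn, ?_⟩
    have := E_lt ρ hρ n; omega
  · have := hc k 1 0 hk one_pos B
    simpa [Nat.mod_one, countAP, QsumAP, count, Qsum] using this
  · have h1 := tendsto_nhds_unique (h fun _ => 0) (hc k m r hk hr fun _ => 0)
    split_ifs at h1
    · have : m = 1 := by exact_mod_cast h1.symm
      omega
    · exact one_ne_zero h1

end Pool.Agent.Results.MP_8144ad_nt.NotAP
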